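import Pool.Agent.H5.BHG.Stmts

/-!
Board `bhg`, row PON: games with one owner are solved in polynomial time.
-/

set_option autoImplicit false

namespace Pool.BHG

open Filter TMLib Pool.PG Pool.DPG

section

variable {α : Type} [Enc α]

/-- a function of the first component -/
theorem pon_up {β γ : Type} [Enc β] [Enc γ] {f : α → β} (hf : PTime f) :
    PTime (fun p : α × γ => f p.1) :=
  hf.comp (PTime.fst PTime.id)

theorem pon_xp {G : α → Game} {X : α → List Bool} {c : α → ℕ} (hG : PTime G) (hX : PTime X)
    (hc : PTime c) : PTime (fun x => xp (G x) (X x) (c x)) := by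
  refine PMA.msk' (f := fun x v => (X x).getD v false && decide (c x ≤ pri (G x) v))
    (PTime.length hG) ?_
  exact PTime.and (PMA.gt' (pon_up hX) (PTime.snd PTime.id))
    (PTime.le (pon_up hc) (PMA.pri' pv1_row (pon_up hG) (PTime.snd PTime.id)))

theorem pon_gdc (q : Bool) {G : α → Game} {X : α → List Bool} {u : α → ℕ} (hG : PTime G)
    (hX : PTime X) (hu : PTime u) : PTime (fun x => gdc q (G x) (X x) (u x)) := by
  have hp := PMA.pri' pv1_row hG hu
  have h1 : PTime (fun x => evb (pri (G x) (u x)) == q) :=
    (PTime.eq (pv1_row.2.2.2.2.2.1.comp hp) (PTime.const q)).congr fun x => by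
      cases evb (pri (G x) (u x)) <;> cases q <;> rfl
  have h2 : PTime (fun x => msk (G x).length fun v => decide (v = u x)) :=
    PMA.msk' (f := fun x v => decide (v = u x)) (PTime.length hG)
      (PTime.eq (PTime.snd PTime.id) (pon_up hu))
  have h3 : PTime (fun x => att q (G x) (xp (G x) (X x) (pri (G x) (u x)))
      (msk (G x).length fun v => decide (v = u x))) :=
    PMA.att' pv1_row q hG (pon_xp hG hX hp) h2
  exact PTime.and h1 (PTime.any (l := fun x => suc (G x) (u x))
    (g := fun x w => (att q (G x) (xp (G x) (X x) (pri (G x) (u x)))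
      (msk (G x).length fun v => decide (v = u x))).getD w false)
    (PMA.suc' pv1_row hG hu) (PMA.gt' (pon_up h3) (PTime.snd PTime.id)))

theorem pon_one1 (q : Bool) {G : α → Game} {X : α → List Bool} (hG : PTime G) (hX : PTime X) :
    PTime (fun x => one1 q (G x) (X x)) :=
  PMA.att' pv1_row q hG hX
    (PMA.msk' (f := fun x u => (X x).getD u false && gdc q (G x) (X x) u) (PTime.length hG)
      (PTime.and (PMA.gt' (pon_up hX) (PTime.snd PTime.id))
        (pon_gdc q (pon_up hG) (pon_up hX) (PTime.snd PTime.id))))

end

theorem pon_thm : PONStmt := by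
  have hG : PTime (fun p : Game × List Bool => p.1) := PTime.fst PTime.id
  have hX : PTime (fun p : Game × List Bool => p.2) := PTime.snd PTime.id
  have ho : PTime (fun q : (Game × List Bool) × ℕ => own q.1.1 q.2) :=
    PMA.own' pv1_row (pon_up hG) (PTime.snd PTime.id)
  have hx : PTime (fun q : (Game × List Bool) × ℕ => !q.1.2.getD q.2 false) :=
    PTime.not (PMA.gt' (pon_up hX) (PTime.snd PTime.id))
  refine PTime.ite
    (PTime.decide_true' (PTime.all (l := fun p : Game × List Bool => List.range p.1.length)
      (g := fun p v => !p.2.getD v false || own p.1 v) (PTime.range (PTime.length hG))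
      (PTime.or hx ho)))
    (PMA.msk' (f := fun (p : Game × List Bool) v => (one1 true p.1 p.2).getD v false)
      (PTime.length hG) (PMA.gt' (pon_up (pon_one1 true hG hX)) (PTime.snd PTime.id)))
    (PTime.ite
      (PTime.decide_true' (PTime.all (l := fun p : Game × List Bool => List.range p.1.length)
        (g := fun p v => !p.2.getD v false || !own p.1 v) (PTime.range (PTime.length hG))
        (PTime.or hx (PTime.not ho))))
      (PMA.msk' (f := fun (p : Game × List Bool) v => !(one1 false p.1 p.2).getD v false)
        (PTime.length hG)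
        (PTime.not (PMA.gt' (pon_up (pon_one1 false hG hX)) (PTime.snd PTime.id))))
      (PTime.const []))

end Pool.BHG
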