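import Pool.Agent.H5.BHG.Stmts4
import Pool.Agent.H59.PG.CMW

/-! # Row MX2 of the board `bhg` -/

set_option autoImplicit false

namespace Pool.BHG

open Filter TMLib Pool.PG Pool.DPG

theorem mx2_mt {g : Game} (hg : Valid g) (x y : ℕ) : Mt (cmp g) x y ↔ Mt g x y := by
  unfold Mt
  rw [CMWx.suc_cmp hg, CMWx.suc_cmp hg]

/-- Row MX2. -/
theorem mx2_thm : MX2Stmt := by
  intro t g hg hM v hv D B hD hB hDt hBt
  rw [CMWx.len_cmp] at hv
  obtain ⟨d, hd, w, hw, h⟩ := hM v hv D B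
    (fun d hd => by
      have h := hD d hd
      rw [CMWx.len_cmp, CMWx.own_cmp, CMWx.own_cmp, CMWx.suc_cmp hg] at h
      exact h)
    (fun w hw => by
      have h := hB w hw
      rw [CMWx.len_cmp, CMWx.own_cmp, CMWx.own_cmp, mx2_mt hg] at h
      exact h) hDt hBt
  exact ⟨d, hd, w, hw, (mx2_mt hg d w).2 h⟩

end Pool.BHG
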